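import Pool.Agent.W558.WT.Pi

set_option autoImplicit false
set_option linter.unusedVariables false
set_option linter.unusedSectionVars false

universe u

open Polynomial Pool.Agent.W558.WT

namespace Pool.Agent.W348.WTM

section fld

variable {k K : Type u} [Field k] [Field K] [Algebra k K] (s : K ≃ₐ[k] K) (p : ℕ)

theorem prod_cyc {M : Type*} [CommMonoidWithZero M] [IsCancelMulZero M] (f : ℕ → M) (p : ℕ)
    (h : f p = f 0) (h0 : f 0 ≠ 0) :
    ∏ i ∈ Finset.range p, f (i + 1) = ∏ i ∈ Finset.range p, f i := by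
  have h1 := Finset.prod_range_succ' f p
  have h2 := Finset.prod_range_succ f p
  rw [h1, h] at h2
  exact mul_right_cancel₀ h0 h2

/-- the product of the linear factors of the conjugates -/
noncomputable def cp (a : K) : K[X] := ∏ i ∈ Finset.range p, (X - C ((s ^ i) a))

theorem cp_fixed (hs : s ^ p = 1) (a : K) :
    (cp s p a).map (s : K →+* K) = cp s p a := by
  unfold cp
  rw [Polynomial.map_prod]
  simp only [Polynomial.map_sub, map_X, map_C]
  have : ∀ i : ℕ, (s : K →+* K) ((s ^ i) a) = (s ^ (i + 1)) a := by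
    intro i; rw [pow_succ']; rfl
  simp only [this]
  exact prod_cyc (fun i => X - C ((s ^ i) a)) p (by simp [hs]) (X_sub_C_ne_zero _)

theorem alg_fixF (hp : 0 < p) (hs : s ^ p = 1) : Algebra.IsAlgebraic (fixF {s}) K := by
  refine ⟨fun y => ?_⟩
  have hmon : (cp s p y).Monic := monic_prod_of_monic _ _ fun i _ => monic_X_sub_C _
  have hcoef : ∀ j, s ((cp s p y).coeff j) = (cp s p y).coeff j := by
    intro j
    conv_rhs => rw [← cp_fixed s p hs y, coeff_map]
    rfl
  have hroot : (cp s p y).eval y = 0 := by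
    unfold cp
    rw [eval_prod]
    exact Finset.prod_eq_zero (Finset.mem_range.2 hp) (by simp)
  have hlift : cp s p y ∈ lifts (algebraMap (fixF {s}) K) := by
    rw [lifts_iff_coeff_lifts]
    intro j
    refine ⟨⟨(cp s p y).coeff j, ?_⟩, rfl⟩
    rw [mem_fixF]
    rintro t rfl
    exact hcoef j
  obtain ⟨q, hq, -, hqm⟩ := lifts_and_natDegree_eq_and_monic hlift hmon
  refine IsIntegral.isAlgebraic ⟨q, hqm, ?_⟩
  rw [← eval_map, hq]
  exact hroot

theorem trdeg_fixF (hp : 0 < p) (hs : s ^ p = 1) :
    Algebra.trdeg k (fixF {s}) = Algebra.trdeg k K := by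
  have := alg_fixF s p hp hs
  have h1 := trdeg_add_eq k (fixF {s}) (A := K)
  rw [trdeg_eq_zero (R := fixF {s}) (A := K), add_zero] at h1
  exact h1

end fld

theorem trdeg_frac (k A K : Type u) [Field k] [CommRing A] [IsDomain A] [Algebra k A] [Field K]
    [Algebra k K] [Algebra A K] [IsScalarTower k A K] [IsFractionRing A K] :
    Algebra.trdeg k K = Algebra.trdeg k A := by
  have : Algebra.IsAlgebraic A K := IsLocalization.isAlgebraic K (nonZeroDivisors A)
  have h1 := trdeg_add_eq k A (A := K)
  rw [trdeg_eq_zero (R := A) (A := K), add_zero] at h1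
  exact h1.symm

section charts

variable {k K : Type u} [Field k] [Field K] [Algebra k K]

/-- the charts of a subfield -/
theorem chart_map (F : IntermediateField k K) {N : ℕ} (H : Fin (N + 1) → K) (H' : Fin (N + 1) → F)
    (i : Fin (N + 1)) (h : ∀ j, ((H' j / H' i : F) : K) = H j / H i) :
    (Algebra.adjoin k (Set.range fun j => H' j / H' i)).map F.val =
      Algebra.adjoin k (Set.range fun j => H j / H i) := by
  rw [AlgHom.map_adjoin, ← Set.range_comp]
  congr 2
  funext j
  exact h j

end charts

end Pool.Agent.W348.WTM
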