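import Pool.Agent.W558.WT.Stms3
import Pool.Agent.W348.WTM.ModA

set_option autoImplicit false
set_option linter.unusedVariables false
set_option linter.unusedSectionVars false

universe u

open Pool.Agent.W558.WT

namespace Pool.Agent.W348.WTM

open Pool.Agent.W558

theorem main : WT_mod.{u} := by
  intro p _ k A K _ _ _ _ _ _ _ _ _ σ s hsσ hσ htr N H hH hsm hc
  have hp : 0 < p := (Fact.out : p.Prime).pos
  have hs : s ^ p = 1 := by
    have h1 : ∀ (i : ℕ) (a : A), (s ^ i) (algebraMap A K a) = algebraMap A K ((σ ^ i) a) := by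
      intro i
      induction i with
      | zero => intro a; rfl
      | succ i ih =>
        intro a
        rw [pow_succ', pow_succ']
        change s ((s ^ i) (algebraMap A K a)) = algebraMap A K (σ ((σ ^ i) a))
        rw [ih, hsσ]
    apply AlgEquiv.ext
    intro y
    obtain ⟨a, b, hb, rfl⟩ := IsFractionRing.div_surjective (A := A) y
    rw [map_div₀, h1, h1, hσ]
    rfl
  have htrK : Algebra.trdeg k K = 2 := (trdeg_frac k A K).trans htr
  refine ⟨(trdeg_fixF s p hp hs).trans htrK, ?_⟩
  have hinj : Function.Injective (algebraMap A K) := IsFractionRing.injective A K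
  have hmem : ∀ (j : Fin (N + 1)) (y : K), s y = y ↔
      ∃ u ∈ Algebra.adjoin k (Set.range fun l => H l / H j),
      ∃ v ∈ Algebra.adjoin k (Set.range fun l => H l / H j), v ≠ 0 ∧ y = u / v := by
    intro j y
    obtain ⟨a, b, hb, rfl⟩ := IsFractionRing.div_surjective (A := A) y
    have hb0 : b ≠ 0 := nonZeroDivisors.ne_zero hb
    rw [← hc j a b hb0, map_div₀, hsσ, hsσ]
    have h1 : algebraMap A K b ≠ 0 := fun h => hb0 (hinj (h.trans (map_zero _).symm))
    have h2 : algebraMap A K (σ b) ≠ 0 := by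
      intro h
      have h3 : σ b = 0 := hinj (h.trans (map_zero _).symm)
      exact hb0 (σ.injective (h3.trans (map_zero _).symm))
    rw [div_eq_div_iff h2 h1, ← map_mul, ← map_mul, hinj.eq_iff]
  have hF : ∀ l, H l / H 0 ∈ fixF {s} := by
    intro l
    rw [mem_fixF]
    rintro t rfl
    exact (hmem 0 _).2 ⟨H l / H 0, Algebra.subset_adjoin ⟨l, rfl⟩, 1, one_mem _, one_ne_zero,
      (div_one _).symm⟩
  set H' : Fin (N + 1) → fixF {s} := fun l => ⟨H l / H 0, hF l⟩ with hH'
  have hH'0 : ∀ l, H' l ≠ 0 := by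
    intro l h
    have h1 : H l / H 0 = 0 := congrArg Subtype.val h
    exact div_ne_zero (hH l) (hH 0) h1
  have hq : ∀ i j, ((H' j / H' i : fixF {s}) : K) = H j / H i := by
    intro i j
    have h1 : ((H' j / H' i : fixF {s}) : K) = (H j / H 0) / (H i / H 0) := rfl
    rw [h1, div_div_div_cancel_right₀ (hH 0)]
  have hmap : ∀ i, (Algebra.adjoin k (Set.range fun j => H' j / H' i)).map (fixF {s}).val =
      Algebra.adjoin k (Set.range fun j => H j / H i) := fun i =>
    chart_map (fixF {s}) H H' i (hq i)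
  refine ⟨N, H', hH'0, fun i => ⟨?_, ?_⟩⟩
  · have h1 : Algebra.Smooth k
        ((Algebra.adjoin k (Set.range fun j => H' j / H' i)).map (fixF {s}).val) := by
      rw [hmap i]
      exact hsm i
    exact Algebra.Smooth.of_equiv ((Algebra.adjoin k (Set.range fun j => H' j / H' i)).equivMapOfInjective
      (fixF {s}).val (fixF {s}).val.injective).symm
  · intro x
    obtain ⟨u, hu, v, hv, hv0, hx⟩ := (hmem i (x : K)).1 (x.2 s rfl)
    rw [← hmap i] at hu hv
    obtain ⟨a, ha, rfl⟩ := hu
    obtain ⟨b, hb, rfl⟩ := hv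
    refine ⟨a, ha, b, hb, ?_, ?_⟩
    · rintro rfl
      exact hv0 (map_zero _)
    · apply Subtype.ext
      rw [hx, div_eq_mul_inv]
      rfl

end Pool.Agent.W348.WTM
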